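import Pool.Agent.H.MP_ad013a_pr.h63s.Q11.C0

namespace Pool.Agent.ad013a.AM11

theorem leaf_ok (i : Nat) : PrL chk (leaf i) := by
 unfold leaf
 exact
 (brec_all (PrL chk)
 (brec_all (PrL chk)
  (brec_all (PrL chk)
   (brec_all (PrL chk)
    p0
    p1)
   p2)
  (brec_all (PrL chk)
   (brec_all (PrL chk)
    p3
    p4)
   p5))
 (brec_all (PrL chk)
  (brec_all (PrL chk)
   (brec_all (PrL chk)
    p6
    p7)
   p8)
  (brec_all (PrL chk)
   p9
   p10)))

theorem all_ok (i : Nat) : chkF false 10000 131072 51607 5835 5970 g (g i) = true := leaf_ok i i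

theorem start_ok : fhx (g 0) = 0 ∧ flx (g 0) = 0 ∧ fnx (g 0) = 0 ∧
    fhy (g 0) = 0 ∧ fly (g 0) = 0 ∧ fny (g 0) = 0 := by decide +kernel

end Pool.Agent.ad013a.AM11
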